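import Pool.Agent.Helper87.VM.Lib2

/-!
# YCL: the blow-up is closed
-/

set_option autoImplicit false

namespace Pool.Agent.Helper87.VM

open MvPolynomial Pool.Agent.Helper48.VMRT

section ycl

variable {κ ν : Type}

/-- the polynomial maps giving the column `j` -/
noncomputable def ycl_col (κ : Type) {ν : Type} (j : ν) : κ → MvPolynomial (κ × ν) ℂ := fun o => X (o, j)

theorem ycl_ev (j : ν) (z : κ × ν → ℂ) : ev (ycl_col κ j) z = fun o => z (o, j) := by
  funext o
  simp [ev, ycl_col]

/-- the two by two minors -/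
def ycl_A1 (κ ν : Type) : Set (MvPolynomial (κ × ν) ℂ) :=
  {p | ∃ (o o' : κ) (j j' : ν), p = X (o, j) * X (o', j') - X (o, j') * X (o', j)}

/-- the equations given by the homogeneous syzygies -/
def ycl_A2 [Fintype ν] (F : ν → MvPolynomial κ ℂ) : Set (MvPolynomial (κ × ν) ℂ) :=
  {p | ∃ (d : ℕ) (h : ν → MvPolynomial κ ℂ) (j₀ : ν) (o : κ), (∀ j, HomE d (h j)) ∧
    ∑ j, h j * F j = 0 ∧ p = ∑ j, aeval (ycl_col κ j₀) (h j) * X (o, j)}

theorem ycl_eval [Fintype ν] (h : ν → MvPolynomial κ ℂ) (j₀ : ν) (o : κ) (z : κ × ν → ℂ) :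
    eval z (∑ j, aeval (ycl_col κ j₀) (h j) * X (o, j)) =
      ∑ j, eval (fun o' => z (o', j₀)) (h j) * z (o, j) := by
  rw [map_sum]
  refine Finset.sum_congr rfl fun j _ => ?_
  rw [map_mul, eval_aeval, ycl_ev, eval_X]

end ycl

theorem st_YCL : ST_YCL := by
  intro κ ν _ _ a F hF
  refine zclosed_of_eqs (ycl_A1 κ ν ∪ ycl_A2 F) ?_
  intro z
  constructor
  · rintro ⟨x, η, rfl, hS⟩ p (hp | hp)
    · obtain ⟨o, o', j, j', rfl⟩ := hp
      rw [map_sub, map_mul, map_mul, eval_X, eval_X, eval_X, eval_X]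
      simp only [seg_apply]
      ring
    · obtain ⟨d, h, j₀, o, hh, hs, rfl⟩ := hp
      rw [ycl_eval]
      have e : (fun o' => seg x η (o', j₀)) = η j₀ • x := by
        funext o'
        simp only [seg_apply, Pi.smul_apply, smul_eq_mul]
        ring
      rw [e]
      have e2 : ∀ j ∈ (Finset.univ : Finset ν), eval (η j₀ • x) (h j) * seg x η (o, j) =
          η j₀ ^ d * x o * (eval x (h j) * η j) := by
        intro j _
        rw [hh j, seg_apply]
        ring
      rw [Finset.sum_congr rfl e2, ← Finset.mul_sum, hS h hs, mul_zero]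
  · intro H
    by_cases hz : z = 0
    · rw [hz]
      exact yc_zero_mem F
    · obtain ⟨⟨o, j₀⟩, hne⟩ := Function.ne_iff.1 hz
      have hne' : z (o, j₀) ≠ 0 := hne
      refine ⟨fun o' => z (o', j₀), fun j => z (o, j) / z (o, j₀), ?_, ?_⟩
      · funext q
        obtain ⟨o', j⟩ := q
        rw [seg_apply]
        have h1 := H _ (Or.inl ⟨o', o, j, j₀, rfl⟩)
        rw [map_sub, map_mul, map_mul, eval_X, eval_X, eval_X, eval_X] at h1
        field_simp
        linear_combination h1
      · refine syz_of_hom hF ?_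
        intro d h hh hs
        have h1 := H _ (Or.inr ⟨d, h, j₀, o, hh, hs, rfl⟩)
        rw [ycl_eval] at h1
        have e2 : ∀ j ∈ (Finset.univ : Finset ν), eval (fun o' => z (o', j₀)) (h j) *
            (z (o, j) / z (o, j₀)) = (z (o, j₀))⁻¹ * (eval (fun o' => z (o', j₀)) (h j) * z (o, j)) := by
          intro j _
          field_simp
        rw [Finset.sum_congr rfl e2, ← Finset.mul_sum, h1, mul_zero]

end Pool.Agent.Helper87.VM
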